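import Pool.Agent.Helper20.QP.St1

/-!
# Project QD, part P, module SCE: existence of the strip coordinate
-/

set_option autoImplicit false

open Filter Topology Matrix Set Metric MeasureTheory
open scoped ComplexConjugate ENNReal

namespace Pool.Agent.Helper74.QP

open Pool.Agent.Helper35.PM Pool.Agent.Helper20.QD Pool.Agent.Helper20.QP

/-- the map from the upper half plane to the disc -/
private noncomputable def cay (z : ℂ) : ℂ := (z - Complex.I) / (z + Complex.I)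

private theorem sqn (z : ℂ) : ‖z‖ ^ 2 = z.re ^ 2 + z.im ^ 2 := by
  rw [← Complex.normSq_eq_norm_sq, Complex.normSq_apply]
  ring

private theorem mem_D {z : ℂ} : z ∈ D ↔ ‖z‖ ^ 2 < 1 := by
  rw [mem_ball_zero_iff]
  constructor
  · intro h
    have := norm_nonneg z
    nlinarith
  · intro h
    have := norm_nonneg z
    nlinarith

private theorem zI_ne {z : ℂ} (hz : 0 < z.im) : z + Complex.I ≠ 0 := by
  intro h
  have h1 := congrArg Complex.im h
  simp only [Complex.add_im, Complex.I_im, Complex.zero_im] at h1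
  linarith

private theorem one_sub_cay {z : ℂ} (hz : 0 < z.im) :
    1 - ‖cay z‖ ^ 2 = 4 * z.im / ‖z + Complex.I‖ ^ 2 := by
  have h1 : 0 < ‖z + Complex.I‖ ^ 2 := by
    have := norm_pos_iff.2 (zI_ne hz)
    positivity
  unfold cay
  rw [norm_div, div_pow, eq_div_iff h1.ne', sub_mul, div_mul_cancel₀ _ h1.ne', one_mul, sqn, sqn]
  simp only [Complex.add_re, Complex.add_im, Complex.I_re, Complex.I_im, Complex.sub_re,
    Complex.sub_im]
  ring

private theorem cay_mem {z : ℂ} (hz : 0 < z.im) : cay z ∈ D := by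
  rw [mem_D]
  have h := one_sub_cay hz
  have h1 : 0 < 4 * z.im / ‖z + Complex.I‖ ^ 2 := by
    have := norm_pos_iff.2 (zI_ne hz)
    positivity
  linarith

private theorem cay_sub {z w : ℂ} (hz : 0 < z.im) (hw : 0 < w.im) :
    cay z - cay w = 2 * Complex.I * (z - w) / ((z + Complex.I) * (w + Complex.I)) := by
  have h1 := zI_ne hz
  have h2 := zI_ne hw
  unfold cay
  field_simp
  ring

private theorem cay_inj {z w : ℂ} (hz : 0 < z.im) (hw : 0 < w.im) (h : cay z = cay w) :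
    z = w := by
  have h1 := cay_sub hz hw
  rw [h, sub_self, eq_comm, div_eq_zero_iff] at h1
  rcases h1 with h1 | h1
  · have h2 : z - w = 0 := by
      rcases mul_eq_zero.1 h1 with h3 | h3
      · exact absurd h3 (mul_ne_zero two_ne_zero Complex.I_ne_zero)
      · exact h3
    exact sub_eq_zero.1 h2
  · exact absurd h1 (mul_ne_zero (zI_ne hz) (zI_ne hw))

private theorem cay_surj {u : ℂ} (hu : u ∈ D) : ∃ z : ℂ, 0 < z.im ∧ cay z = u := by
  rw [mem_D] at hu
  have h1 : (1 : ℂ) - u ≠ 0 := by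
    intro h
    have h2 : u = 1 := (sub_eq_zero.1 h).symm
    rw [h2, norm_one] at hu
    norm_num at hu
  have h4 : 0 < ‖1 - u‖ ^ 2 := by
    have := norm_pos_iff.2 h1
    positivity
  refine ⟨Complex.I * ((1 + u) / (1 - u)), ?_, ?_⟩
  · have h3 : (Complex.I * ((1 + u) / (1 - u))).im = (1 - ‖u‖ ^ 2) / ‖1 - u‖ ^ 2 := by
      rw [Complex.I_mul_im, Complex.div_re, ← Complex.normSq_eq_norm_sq (1 - u), ← add_div, sqn u]
      congr 1
      simp only [Complex.add_re, Complex.add_im, Complex.one_re, Complex.one_im, Complex.sub_re,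
        Complex.sub_im]
      ring
    rw [h3]
    exact div_pos (by linarith) h4
  · unfold cay
    have h5 : Complex.I * ((1 + u) / (1 - u)) + Complex.I ≠ 0 := by
      have h6 : Complex.I * ((1 + u) / (1 - u)) + Complex.I = 2 * Complex.I / (1 - u) := by
        field_simp
        ring
      rw [h6]
      exact div_ne_zero (mul_ne_zero two_ne_zero Complex.I_ne_zero) h1
    rw [div_eq_iff h5]
    field_simp
    ring

private theorem dl_cay {z w : ℂ} (hz : 0 < z.im) (hw : 0 < w.im) :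
    dl (cay z) (cay w) = ‖z - w‖ ^ 2 / (4 * z.im * w.im) := by
  have h1 : 0 < ‖z + Complex.I‖ := norm_pos_iff.2 (zI_ne hz)
  have h2 : 0 < ‖w + Complex.I‖ := norm_pos_iff.2 (zI_ne hw)
  unfold dl
  rw [one_sub_cay hz, one_sub_cay hw, cay_sub hz hw, norm_div, norm_mul, norm_mul, norm_mul,
    Complex.norm_I, Complex.norm_two]
  field_simp
  ring

private theorem exp_bij : BijOn Complex.exp (Sm Real.pi) {z : ℂ | 0 < z.im} := by
  refine ⟨?_, ?_, ?_⟩
  · intro z hz
    change 0 < (Complex.exp z).im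
    rw [Complex.exp_im]
    exact mul_pos (Real.exp_pos _) (Real.sin_pos_of_pos_of_lt_pi hz.1 hz.2)
  · intro z hz w hw h
    have hp := Real.pi_pos
    exact Complex.exp_inj_of_neg_pi_lt_of_le_pi (by linarith [hz.1]) hz.2.le
      (by linarith [hw.1]) hw.2.le h
  · intro z hz
    change 0 < z.im at hz
    have hz0 : z ≠ 0 := by
      rintro rfl
      simp at hz
    refine ⟨Complex.log z, ?_, Complex.exp_log hz0⟩
    have h1 : 0 < Real.sin (Complex.arg z) := by
      rw [Complex.sin_arg]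
      exact div_pos hz (norm_pos_iff.2 hz0)
    have h2 := Complex.arg_le_pi z
    have h3 := Complex.neg_pi_lt_arg z
    change 0 < (Complex.log z).im ∧ (Complex.log z).im < Real.pi
    rw [Complex.log_im]
    constructor
    · by_contra h
      have h4 := Real.sin_nonpos_of_nonpos_of_neg_pi_le (not_lt.1 h) h3.le
      linarith
    · refine lt_of_le_of_ne h2 fun h => ?_
      rw [h, Real.sin_pi] at h1
      exact lt_irrefl _ h1

private theorem scl_bij {l : ℝ} (hl : 0 < l) :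
    BijOn (fun w : ℂ => (l : ℂ) * w) (Sm (Real.pi / l)) (Sm Real.pi) := by
  have hl0 : (l : ℂ) ≠ 0 := Complex.ofReal_ne_zero.2 hl.ne'
  refine ⟨?_, ?_, ?_⟩
  · intro w hw
    change 0 < ((l : ℂ) * w).im ∧ ((l : ℂ) * w).im < Real.pi
    rw [Complex.im_ofReal_mul]
    refine ⟨mul_pos hl hw.1, ?_⟩
    have h := hw.2
    rw [lt_div_iff₀ hl] at h
    linarith
  · intro w _ w' _ h
    exact mul_left_cancel₀ hl0 h
  · intro z hz
    refine ⟨z / l, ?_, mul_div_cancel₀ _ hl0⟩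
    change 0 < (z / (l : ℂ)).im ∧ (z / (l : ℂ)).im < Real.pi / l
    rw [Complex.div_ofReal_im]
    exact ⟨div_pos hz.1 hl, (div_lt_div_iff_of_pos_right hl).2 hz.2⟩

private theorem cay_bij : BijOn cay {z : ℂ | 0 < z.im} D := by
  refine ⟨fun z hz => cay_mem hz, fun z hz w hw h => cay_inj hz hw h, ?_⟩
  intro u hu
  obtain ⟨z, hz, h⟩ := cay_surj hu
  exact ⟨z, hz, h⟩

private theorem rot_bij {κ : ℂ} (hκ : ‖κ‖ = 1) : BijOn (fun u : ℂ => κ * u) D D := by
  have hκ0 : κ ≠ 0 := norm_pos_iff.1 (by rw [hκ]; exact one_pos)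
  refine ⟨?_, ?_, ?_⟩
  · intro u hu
    rw [mem_ball_zero_iff] at hu ⊢
    rwa [norm_mul, hκ, one_mul]
  · intro u _ w _ h
    exact mul_left_cancel₀ hκ0 h
  · intro u hu
    refine ⟨u / κ, ?_, mul_div_cancel₀ _ hκ0⟩
    rw [mem_ball_zero_iff] at hu ⊢
    rwa [norm_div, hκ, div_one]

private theorem dl_rot {κ : ℂ} (hκ : ‖κ‖ = 1) (u w : ℂ) : dl (κ * u) (κ * w) = dl u w := by
  unfold dl
  rw [← mul_sub, norm_mul, norm_mul, norm_mul, hκ, one_mul, one_mul, one_mul]

private theorem det_su {B : SL} (hB : IsSU B) :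
    ‖(B : Mat) 0 0‖ ^ 2 - ‖(B : Mat) 0 1‖ ^ 2 = 1 := by
  have h := B.det_coe
  rw [Matrix.det_fin_two, hB.1, hB.2, Complex.mul_conj, Complex.mul_conj,
    Complex.normSq_eq_norm_sq, Complex.normSq_eq_norm_sq] at h
  exact_mod_cast h

private theorem one_sub_mob {B : SL} (hB : IsSU B) {u : ℂ} (hd : den B u ≠ 0) :
    1 - ‖mob B u‖ ^ 2 = (1 - ‖u‖ ^ 2) / ‖den B u‖ ^ 2 := by
  have h1 : 0 < ‖den B u‖ ^ 2 := by
    have := norm_pos_iff.2 hd
    positivity
  have e : mob B u = ((B : Mat) 0 0 * u + (B : Mat) 0 1) / den B u := rfl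
  have hdet := det_su hB
  rw [e, norm_div, div_pow, eq_div_iff h1.ne', sub_mul, div_mul_cancel₀ _ h1.ne', one_mul]
  have e2 : den B u = conj ((B : Mat) 0 1) * u + conj ((B : Mat) 0 0) := by
    unfold den
    rw [hB.1, hB.2]
  rw [e2]
  rw [sqn, sqn] at hdet
  rw [sqn, sqn, sqn]
  simp only [Complex.add_re, Complex.add_im, Complex.mul_re, Complex.mul_im, Complex.conj_re,
    Complex.conj_im]
  linear_combination (1 - (u.re ^ 2 + u.im ^ 2)) * hdet

private theorem cay_mul {c σ : ℝ} (hc : c ^ 2 = σ ^ 2 + 1) (hcp : 0 < c + σ) {z : ℂ}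
    (hz : 0 < z.im) :
    cay (((c + σ : ℝ) : ℂ) ^ 2 * z) = (c * cay z + σ) / (σ * cay z + c) := by
  have n1 := zI_ne hz
  have hE : (((c + σ : ℝ) : ℂ)) ≠ 0 := Complex.ofReal_ne_zero.2 hcp.ne'
  have n2 : ((c + σ : ℝ) : ℂ) ^ 2 * z + Complex.I ≠ 0 := by
    apply zI_ne
    rw [← Complex.ofReal_pow, Complex.im_ofReal_mul]
    positivity
  have hcC : (c : ℂ) ^ 2 = σ ^ 2 + 1 := by exact_mod_cast hc
  have e1 : (σ : ℂ) * cay z + c = (((c + σ : ℝ) : ℂ) ^ 2 * z + Complex.I) /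
      (((c + σ : ℝ) : ℂ) * (z + Complex.I)) := by
    rw [eq_div_iff (mul_ne_zero hE n1)]
    unfold cay
    push_cast
    have e : ((σ : ℂ) * ((z - Complex.I) / (z + Complex.I)) + c) * ((c + σ) * (z + Complex.I)) =
        (σ * (z - Complex.I) + c * (z + Complex.I)) * (c + σ) := by
      field_simp
    rw [e]
    linear_combination Complex.I * hcC
  have e2 : (c : ℂ) * cay z + σ = (((c + σ : ℝ) : ℂ) ^ 2 * z - Complex.I) /
      (((c + σ : ℝ) : ℂ) * (z + Complex.I)) := by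
    rw [eq_div_iff (mul_ne_zero hE n1)]
    unfold cay
    push_cast
    have e : ((c : ℂ) * ((z - Complex.I) / (z + Complex.I)) + σ) * ((c + σ) * (z + Complex.I)) =
        (c * (z - Complex.I) + σ * (z + Complex.I)) * (c + σ) := by
      field_simp
    rw [e]
    linear_combination (-Complex.I) * hcC
  rw [e1, e2, div_div_div_cancel_right₀ (mul_ne_zero hE n1)]
  rfl

private theorem exp_sub (l : ℝ) (w w' : ℂ) :
    ‖Complex.exp (l * w) - Complex.exp (l * w')‖ ^ 2 =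
      4 * (Real.exp (l * w.re) * Real.exp (l * w'.re)) *
        ‖Complex.sinh ((l : ℂ) * (w - w') / 2)‖ ^ 2 := by
  have h1 : Complex.exp (l * w) - Complex.exp (l * w') =
      2 * Complex.exp ((l : ℂ) * (w + w') / 2) * Complex.sinh ((l : ℂ) * (w - w') / 2) := by
    rw [Complex.sinh]
    have e1 : (l : ℂ) * w = (l : ℂ) * (w + w') / 2 + (l : ℂ) * (w - w') / 2 := by ring
    have e2 : (l : ℂ) * w' = (l : ℂ) * (w + w') / 2 + -((l : ℂ) * (w - w') / 2) := by ring
    conv_lhs => rw [e1, e2]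
    rw [Complex.exp_add, Complex.exp_add]
    ring
  have h2 : ‖Complex.exp ((l : ℂ) * (w + w') / 2)‖ ^ 2 =
      Real.exp (l * w.re) * Real.exp (l * w'.re) := by
    rw [Complex.norm_exp, ← Real.exp_nat_mul, ← Real.exp_add]
    congr 1
    have e3 : ((l : ℂ) * (w + w') / 2).re = l * (w.re + w'.re) / 2 := by
      have e4 : (l : ℂ) * (w + w') / 2 = ((l / 2 : ℝ) : ℂ) * (w + w') := by
        push_cast
        ring
      rw [e4, Complex.re_ofReal_mul, Complex.add_re]
      ring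
    rw [e3]
    push_cast
    ring
  rw [h1, norm_mul, norm_mul, Complex.norm_two, mul_pow, mul_pow, h2]
  ring

private theorem cay_deriv {z : ℂ} (hz : 0 < z.im) :
    HasDerivAt cay (2 * Complex.I / (z + Complex.I) ^ 2) z := by
  have h1 := zI_ne hz
  have d := ((hasDerivAt_id z).sub_const Complex.I).div ((hasDerivAt_id z).add_const Complex.I) h1
  refine d.congr_deriv ?_
  simp only [id]
  congr 1
  ring

/-- SCE -/
theorem hSCE (hSUB : StSUB) (hMET : StMET) (hHY1 : StHY1) : StSCE := by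
  intro A hA hsh
  obtain ⟨s1, s2, s3, s4, s5, -⟩ := hSUB
  obtain ⟨m1, -⟩ := hMET
  obtain ⟨-, -, -, -, y5, y6⟩ := hHY1
  -- the length
  obtain ⟨l, hl⟩ : ∃ l, l = 2 * Real.arsinh (Real.sqrt (sh A)) := ⟨_, rfl⟩
  have hsq : 0 < Real.sqrt (sh A) := Real.sqrt_pos.2 hsh
  have hl0 : 0 < l := by
    rw [hl]
    have := Real.arsinh_pos_iff.2 hsq
    linarith
  have hl2 : l / 2 = Real.arsinh (Real.sqrt (sh A)) := by rw [hl]; ring
  have hsinh : Real.sinh (l / 2) = Real.sqrt (sh A) := by rw [hl2, Real.sinh_arsinh]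
  have hlsh : Real.sinh (l / 2) ^ 2 = sh A := by rw [hsinh, Real.sq_sqrt hsh.le]
  obtain ⟨σ, hσ⟩ : ∃ σ, σ = Real.sinh (l / 2) := ⟨_, rfl⟩
  obtain ⟨c, hc⟩ : ∃ c, c = Real.cosh (l / 2) := ⟨_, rfl⟩
  have hσ0 : 0 < σ := by rw [hσ, hsinh]; exact hsq
  have hc0 : 0 < c := by rw [hc]; exact Real.cosh_pos _
  have hcσ : c ^ 2 = σ ^ 2 + 1 := by rw [hc, hσ]; exact Real.cosh_sq _
  have hσsh : σ ^ 2 = sh A := by rw [hσ]; exact hlsh
  -- the axis point
  obtain ⟨z0, hz0, hz0'⟩ := y5 A hA hsh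
  obtain ⟨B, hB, hB0⟩ := s3 z0 hz0
  have h0D : (0 : ℂ) ∈ D := by simp
  have h0DD : (0 : ℂ) ∈ DD := by simp
  have hDDD : ∀ x ∈ D, x ∈ DD := fun x hx => ball_subset_closedBall hx
  have hBi : IsSU B⁻¹ := (s1 B hB).1
  obtain ⟨A', hA'⟩ : ∃ A', A' = B⁻¹ * A * B := ⟨_, rfl⟩
  have hA'su : IsSU A' := by rw [hA']; exact s2 _ _ (s2 _ _ hBi hA) hB
  have hcomm : B * A' = A * B := by rw [hA']; group
  have hdB : ∀ x ∈ D, den B x ≠ 0 := fun x hx => (s1 B hB).2.1 x (hDDD x hx)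
  have hdA' : ∀ x ∈ D, den A' x ≠ 0 := fun x hx => (s1 A' hA'su).2.1 x (hDDD x hx)
  have hmB : ∀ x ∈ D, mob B x ∈ D := fun x hx => (s1 B hB).2.2.1.mapsTo hx
  have hmA' : ∀ x ∈ D, mob A' x ∈ D := fun x hx => (s1 A' hA'su).2.2.1.mapsTo hx
  have hint : ∀ x ∈ D, mob A (mob B x) = mob B (mob A' x) := by
    intro x hx
    rw [← (s4 A B x (hdB x hx)).1, ← (s4 B A' x (hdA' x hx)).1, hcomm]
  have hsh' : sh A' = sh A := by
    have h := y6 A B⁻¹
    rw [inv_inv] at h
    rw [hA']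
    exact h
  -- entries of A'
  have hdl : dl 0 (mob A' 0) = sh A := by
    rw [← m1 B 0 (mob A' 0) hB h0D (hmA' 0 h0D), ← hint 0 h0D, hB0]
    exact hz0'
  have hdet := det_su hA'su
  have hm0 : mob A' 0 = (A' : Mat) 0 1 / (A' : Mat) 1 1 := by
    unfold mob
    rw [mul_zero, mul_zero, zero_add, zero_add]
  have ha0 : 0 < ‖(A' : Mat) 0 0‖ ^ 2 := by
    have := sq_nonneg ‖(A' : Mat) 0 1‖
    linarith
  have hb : ‖(A' : Mat) 0 1‖ ^ 2 = sh A := by
    rw [← hdl, hm0]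
    unfold dl
    rw [zero_sub, norm_neg, norm_zero, norm_div, hA'su.1, RCLike.norm_conj, div_pow]
    have h1 : 1 - ‖(A' : Mat) 0 1‖ ^ 2 / ‖(A' : Mat) 0 0‖ ^ 2 = 1 / ‖(A' : Mat) 0 0‖ ^ 2 := by
      rw [eq_div_iff ha0.ne', sub_mul, div_mul_cancel₀ _ ha0.ne', one_mul]
      exact hdet
    have ha1 : ‖(A' : Mat) 0 0‖ ≠ 0 := fun h => by
      rw [h] at ha0
      norm_num at ha0
    rw [h1]
    field_simp
    ring
  have hbσ : ‖(A' : Mat) 0 1‖ = σ := by
    have h1 : ‖(A' : Mat) 0 1‖ ^ 2 = σ ^ 2 := by rw [hb, hσsh]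
    exact (pow_left_inj₀ (norm_nonneg _) hσ0.le two_ne_zero).1 h1
  have htr : ((A' : Mat) 0 0).re ^ 2 = c ^ 2 := by
    have h1 : sh A' = ((A' : Mat) 0 0).re ^ 2 - 1 := by
      unfold sh
      rw [Matrix.trace_fin_two, hA'su.1, Complex.add_re, Complex.conj_re]
      ring
    rw [hcσ, hσsh, ← hsh', h1]
    ring
  have him : ((A' : Mat) 0 0).im = 0 := by
    have h1 := sqn ((A' : Mat) 0 0)
    have h2 : ((A' : Mat) 0 0).im ^ 2 = 0 := by
      have h3 : ‖(A' : Mat) 0 0‖ ^ 2 = c ^ 2 := by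
        rw [hcσ, hσsh, ← hb]
        linarith
      linarith
    exact pow_eq_zero_iff two_ne_zero |>.1 h2
  obtain ⟨s, hs1, hs2⟩ : ∃ s : ℝ, s ^ 2 = 1 ∧ (A' : Mat) 0 0 = ((s * c : ℝ) : ℂ) := by
    rcases sq_eq_sq_iff_eq_or_eq_neg.1 htr with h | h
    · refine ⟨1, one_pow 2, Complex.ext ?_ ?_⟩
      · rw [Complex.ofReal_re, one_mul, h]
      · rw [Complex.ofReal_im, him]
    · refine ⟨-1, by norm_num, Complex.ext ?_ ?_⟩
      · rw [Complex.ofReal_re, h]
        ring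
      · rw [Complex.ofReal_im, him]
  have hσC : (σ : ℂ) ≠ 0 := Complex.ofReal_ne_zero.2 hσ0.ne'
  have hsC : (s : ℂ) ^ 2 = 1 := by exact_mod_cast hs1
  have hs0 : (s : ℂ) ≠ 0 := by
    intro h
    rw [h] at hsC
    norm_num at hsC
  obtain ⟨κ, hκ⟩ : ∃ κ : ℂ, κ = s * (A' : Mat) 0 1 / σ := ⟨_, rfl⟩
  have hκ1 : ‖κ‖ = 1 := by
    rw [hκ, norm_div, norm_mul, hbσ, Complex.norm_real, Complex.norm_real,
      Real.norm_of_nonneg hσ0.le]
    have h1 : ‖s‖ = 1 := by
      have h2 : ‖s‖ ^ 2 = 1 ^ 2 := by rw [Real.norm_eq_abs, sq_abs, hs1, one_pow]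
      exact (pow_left_inj₀ (norm_nonneg _) zero_le_one two_ne_zero).1 h2
    rw [h1, one_mul, div_self hσ0.ne']
  have hb' : (A' : Mat) 0 1 = s * σ * κ := by
    rw [hκ]
    field_simp
    rw [hsC, mul_one]
  have hκκ : conj κ * κ = 1 := by
    rw [← Complex.normSq_eq_conj_mul_self, Complex.normSq_eq_norm_sq, hκ1]
    norm_num
  have hrot := rot_bij hκ1
  -- the main relation
  have hmain : ∀ u ∈ D, mob A' (κ * u) = κ * ((c * u + σ) / (σ * u + c)) := by
    intro u hu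
    have hd := hdA' (κ * u) (hrot.mapsTo hu)
    unfold den at hd
    unfold mob
    rw [hA'su.1, hA'su.2, hs2, hb'] at *
    simp only [map_mul, Complex.conj_ofReal] at hd ⊢
    push_cast at hd ⊢
    have e1 : (s : ℂ) * σ * conj κ * (κ * u) + s * c = s * (σ * u + c) := by
      linear_combination (s : ℂ) * σ * u * hκκ
    rw [e1] at hd ⊢
    have h3 : (σ : ℂ) * u + c ≠ 0 := fun h => hd (by rw [h, mul_zero])
    field_simp
  have hSm : ∀ w ∈ Sm (Real.pi / l), 0 < (Complex.exp (l * w)).im ∧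
      0 < Real.sin (l * w.im) ∧
      (Complex.exp (l * w)).im = Real.exp (l * w.re) * Real.sin (l * w.im) := by
    intro w hw
    have h1 := exp_bij.mapsTo ((scl_bij hl0).mapsTo hw)
    have h2 := (scl_bij hl0).mapsTo hw
    change 0 < ((l : ℂ) * w).im ∧ ((l : ℂ) * w).im < Real.pi at h2
    rw [Complex.im_ofReal_mul] at h2
    refine ⟨h1, Real.sin_pos_of_pos_of_lt_pi h2.1 h2.2, ?_⟩
    rw [Complex.exp_im, Complex.re_ofReal_mul, Complex.im_ofReal_mul]
  have hder : ∀ w ∈ Sm (Real.pi / l), HasDerivAt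
      (fun w : ℂ => mob B (κ * cay (Complex.exp (l * w))))
      ((den B (κ * cay (Complex.exp (l * w))) ^ 2)⁻¹ *
        (κ * (2 * Complex.I / (Complex.exp (l * w) + Complex.I) ^ 2 *
          (Complex.exp (l * w) * l)))) w := by
    intro w hw
    have hz := (hSm w hw).1
    have d1 : HasDerivAt (fun w : ℂ => (l : ℂ) * w) l w := by
      simpa using (hasDerivAt_id w).const_mul (l : ℂ)
    have d2 : HasDerivAt (fun w : ℂ => Complex.exp ((l : ℂ) * w))
        (Complex.exp (l * w) * l) w := d1.cexp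
    have d3 := (cay_deriv hz).comp w d2
    have d4 := d3.const_mul κ
    exact (s5 B _ (hdB _ (hrot.mapsTo (cay_mem hz)))).comp w d4
  refine ⟨l, fun w => mob B (κ * cay (Complex.exp (l * w))), hl0, hlsh, ?_, ?_, ?_, ?_, ?_⟩
  · intro w hw
    exact (hder w hw).differentiableAt.differentiableWithinAt
  · exact (s1 B hB).2.2.1.comp (hrot.comp (cay_bij.comp (exp_bij.comp (scl_bij hl0))))
  · intro w hw
    have hz := (hSm w hw).1
    have hu := hrot.mapsTo (cay_mem hz)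
    have e1 : Complex.exp ((l : ℂ) * (w + 1)) =
        ((c + σ : ℝ) : ℂ) ^ 2 * Complex.exp ((l : ℂ) * w) := by
      have e2 : ((c + σ : ℝ) : ℂ) = Complex.exp (((l / 2 : ℝ)) : ℂ) := by
        rw [hc, hσ, Real.cosh_add_sinh, Complex.ofReal_exp]
      rw [e2, ← Complex.exp_nat_mul, ← Complex.exp_add]
      congr 1
      push_cast
      ring
    change mob B (κ * cay (Complex.exp (l * (w + 1)))) = mob A (mob B (κ * cay _))
    rw [hint _ hu, hmain _ (cay_mem hz), e1, cay_mul hcσ (by linarith) hz]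
  · intro w hw w' hw'
    obtain ⟨hz, hs, hi⟩ := hSm w hw
    obtain ⟨hz', hs', hi'⟩ := hSm w' hw'
    change dl (mob B (κ * cay _)) (mob B (κ * cay _)) = _
    rw [m1 B _ _ hB (hrot.mapsTo (cay_mem hz)) (hrot.mapsTo (cay_mem hz')), dl_rot hκ1,
      dl_cay hz hz', exp_sub, hi, hi']
    have p1 := Real.exp_pos (l * w.re)
    have p2 := Real.exp_pos (l * w'.re)
    field_simp
  · intro w hw
    obtain ⟨hz, hs, hi⟩ := hSm w hw
    have hu := hrot.mapsTo (cay_mem hz)
    have hd := hdB _ hu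
    rw [(hder w hw).deriv]
    change _ * 2 / (1 - ‖mob B (κ * cay _)‖ ^ 2) = _
    have n1 : 0 < ‖Complex.exp (l * w) + Complex.I‖ := norm_pos_iff.2 (zI_ne hz)
    have n2 : 0 < ‖den B (κ * cay (Complex.exp (l * w)))‖ := norm_pos_iff.2 hd
    have n3 : ‖Complex.exp (l * w)‖ = Real.exp (l * w.re) := by
      rw [Complex.norm_exp, Complex.re_ofReal_mul]
    have p1 := Real.exp_pos (l * w.re)
    rw [one_sub_mob hB hd, norm_mul κ, hκ1, one_mul, one_sub_cay hz, norm_mul, norm_inv, norm_pow,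
      norm_mul κ, hκ1, one_mul, norm_mul, norm_div, norm_mul, norm_mul, norm_pow,
      Complex.norm_two, Complex.norm_I, n3, Complex.norm_real, Real.norm_of_nonneg hl0.le, hi]
    field_simp
    ring

end Pool.Agent.Helper74.QP
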